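import Pool.Agent.H967.KRU.Main3

set_option autoImplicit false

/-! # Sharp mean-variance bounds for `k`-th records from symmetric unimodal parents
(MP_d11fee_pr, Q2)

The set `suValues k n` consists of all numbers `(E_F R - μ_F) / σ_F`, `R` the `n`-th `k`-th record
value, where the law `P` with distribution function `F` is symmetric about its mean, has a
continuous distribution function and a finite positive variance (`Sym`), and has a density which is
nondecreasing on `(-∞, μ_F)` and nonincreasing on `(μ_F, ∞)` (`Unimodal`). The expectation is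
`∫₀¹ F⁻¹(x) f(x) dx` with the density `f` of the problem, `f k n` (`recordMean`), and
`φ k n x = f k n x - f k n (1 - x)`. `D^su(k, n)` is the least upper bound of `suValues k n`. -/

namespace Pool.Agent.Results.MP_d11fee_pr.SymmetricUnimodal

open Pool.Agent.Q82.KR (f φ quantile mean sd recordMean Sym)
open Pool.Agent.H967.KRU (Unimodal suValues)
open Set MeasureTheory

/-- the equations for the knot `α`: `1/2 < α < 1`, `φ(α) > 0`, `(1-α) φ(α) ≤ ∫_α^1 φ` and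
`(1-α)² φ(α) = ∫_α^1 (4 + 2α - 6x) φ(x) dx` -/
def IsKnot (k n : ℕ) (α : ℝ) : Prop :=
  α ∈ Ioo (1 / 2 : ℝ) 1 ∧ 0 < φ k n α ∧ (1 - α) * φ k n α ≤ ∫ x in α..1, φ k n x ∧
    (1 - α) ^ 2 * φ k n α = ∫ x in α..1, (4 + 2 * α - 6 * x) * φ k n x

/-- the average of `φ` over `[α, 1]` -/
noncomputable def avg (k n : ℕ) (α : ℝ) : ℝ := (∫ x in α..1, φ k n x) / (1 - α)

/-- `∑_{j ≤ n} (k ln 2)^j / j!` -/
noncomputable def S (k n : ℕ) : ℝ :=
  ∑ j ∈ Finset.range (n + 1), ((k : ℝ) * Real.log 2) ^ j / (j.factorial : ℝ)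

/-- `(k / (k + 1))^(n + 1)`, the mean of `1 - R` for the uniform parent on `(0, 1)` -/
noncomputable def r (k n : ℕ) : ℝ := ((k : ℝ) / (k + 1)) ^ (n + 1)

/-- **The value of `D^su(k, n)` for all `k ≥ 1`, `n ≥ 1`.** -/
theorem result (k n : ℕ) (hk : 1 ≤ k) (hn : 1 ≤ n) :
    (k = 1 →
      IsGreatest (suValues k n) (√(((Nat.centralBinom n : ℝ) -
        (∫ x in (0 : ℝ)..1, Real.log x ^ n * Real.log (1 - x) ^ n) / (n.factorial : ℝ) ^ 2) / 2)) ∧
      ∫ x in (1 / 2 : ℝ)..1, φ k n x ^ 2 = (Nat.centralBinom n : ℝ) -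
        (∫ x in (0 : ℝ)..1, Real.log x ^ n * Real.log (1 - x) ^ n) / (n.factorial : ℝ) ^ 2) ∧
    (2 ≤ k → 1 / 2 ≤ r k n → IsLUB (suValues k n) 0) ∧
    (2 ≤ k → r k n < 1 / 2 → 3 * (1 / 2 - r k n) ≤ S k n / 2 ^ (k - 1) - 1 →
      IsGreatest (suValues k n) (√3 * (1 - 2 * r k n))) ∧
    (2 ≤ k → r k n < 1 / 2 → S k n / 2 ^ (k - 1) - 1 < 3 * (1 / 2 - r k n) →
      ∃ α, IsKnot k n α ∧ (∀ β, IsKnot k n β → β = α) ∧
        IsGreatest (suValues k n)
          (√(((∫ x in (1 / 2 : ℝ)..α, φ k n x ^ 2) + (1 - α) / 3 *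
            (φ k n α ^ 2 - 2 * φ k n α * avg k n α + 4 * avg k n α ^ 2)) / 2))) := by
  have hI : 2 ≤ k → ∫ x in (1 / 2 : ℝ)..1, φ k n x = S k n / 2 ^ (k - 1) - 1 := by
    intro hk2
    rw [Pool.Agent.Q82.KR.integral_φ hk2]
    obtain ⟨b, rfl⟩ : ∃ b, k = b + 1 := ⟨k - 1, by omega⟩
    rw [Nat.add_sub_cancel]
    unfold S
    rw [pow_succ]
    field_simp
  refine ⟨?_, ?_, ?_, ?_⟩
  · rintro rfl
    refine ⟨?_, Pool.Agent.H967.KRU.closed_one n⟩
    rw [← Pool.Agent.H967.KRU.closed_one n]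
    exact Pool.Agent.H967.KRU.case_one hn
  · intro hk2 h
    exact Pool.Agent.H967.KRU.case_zero hk2 hn h
  · intro hk2 h1 h2
    exact Pool.Agent.H967.KRU.case_unif hk2 hn h1 (by rw [hI hk2]; exact h2)
  · intro hk2 h1 h2
    have hs := Pool.Agent.H967.KRU.shp_φ hk2 hn
    have hJ := Pool.Agent.H967.KRU.J_eq hk n
    have h1' : ((k : ℝ) / (k + 1)) ^ (n + 1) < 1 / 2 := h1
    obtain ⟨α, hα⟩ := Pool.Agent.H967.KRU.exists_knot hs (by rw [hJ]; linarith)
      (by rw [hJ, hI hk2]; exact h2)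
    refine ⟨α, hα, fun β hβ => ?_, Pool.Agent.H967.KRU.case_knot hk2 hn hα⟩
    rcases lt_trichotomy β α with c | c | c
    · exact absurd c (Pool.Agent.H967.KRU.knot_unique hs hβ hα)
    · exact c
    · exact absurd c (Pool.Agent.H967.KRU.knot_unique hs hα hβ)

end Pool.Agent.Results.MP_d11fee_pr.SymmetricUnimodal
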